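import Pool.Agent.H51.BKc

namespace Pool.Agent.Results.MP_7e1e73_al.Bound

open Pool.Agent.H51.BKDefs

/-- Every Bloch-Kato Lie algebra (degree one part `V`) over a field of characteristic `≠ 2` whose
cohomology vanishes above degree `n` has finite Betti numbers with `2 n b₂ ≤ (n - 1) b₁²`. -/
theorem result (k : Type) [Field k] (h2 : (2 : k) ≠ 0) (L : Type) [LieRing L] [LieAlgebra k L]
    (V : Submodule k L) (h : IsBK V) (n : ℕ) (hn : ∀ i, n < i → Subsingleton (Coh k L i)) :
    (∀ i, Module.Finite k (Coh k L i)) ∧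
      2 * (n : ℤ) * Module.finrank k (Coh k L 2)
        ≤ ((n : ℤ) - 1) * (Module.finrank k (Coh k L 1) : ℤ) ^ 2 :=
  ⟨(Pool.Agent.H51.BKc.main h2 h n hn).1, (Pool.Agent.H51.BKc.main h2 h n hn).2.2⟩

end Pool.Agent.Results.MP_7e1e73_al.Bound
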